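import Pool.Agent.Y885.GW10

set_option autoImplicit false

/-!
# The joint Gaussian law for the Moebius function on windows moved by few elements of arbitrary sets

Good and Churchhouse conjecture that the sums of the Moebius function over windows of `b` consecutive integers, divided
by `√(6 b / π ^ 2)`, are asymptotically normal. Here every point `h + u` of the window is moved by the sum of a few
elements of an arbitrary set `A u`; nothing is assumed but that `A u` contains an element of every interval `[x, l x]`.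
For one choice of the moved points the sums over `k` adjacent windows of `b` points are asymptotically independent
standard Gaussian variables (the increments of Brownian motion), for ALL lengths `b₀ ≤ b ≤ log ^ κ N`, in all intervals
of at least `N / log ^ κ N` integers up to `N`, and uniformly in all arguments of the distribution function.
-/

namespace Pool.Agent.Results.MP_4f18df_nt.PerturbedWindowsGaussian

open Finset

/-- `σ S h u = h + u + ∑ a ∈ S u, a`: the `u`-th point `h + u` of the window, moved by the elements of `S u`. -/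
def σ (S : ℕ → Finset ℕ) (h u : ℕ) : ℕ := h + u + ∑ a ∈ S u, a

/-- `M S h b x i`: the sum of the Moebius function over the `i`-th window of `b` points, that is the sum of
`μ(x + σ S h u)` over the `u` with `i b < u ≤ (i + 1) b`. -/
noncomputable def M (S : ℕ → Finset ℕ) (h b x i : ℕ) : ℝ :=
  ∑ u ∈ Ioc (i * b) (i * b + b), ((ArithmeticFunction.moebius (x + σ S h u) : ℤ) : ℝ)

open Classical in
/-- The proportion of the integers `x` in `(Z, Z + Y]` such that `M S h b x i ≤ t i * √(6 b / π ^ 2)` for all `i < k`. -/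
noncomputable def law {k : ℕ} (S : ℕ → Finset ℕ) (h b Z Y : ℕ) (t : Fin k → ℝ) : ℝ :=
  (((Ioc Z (Z + Y)).filter (fun x => ∀ i : Fin k, M S h b x i ≤ t i * √(6 * b / Real.pi ^ 2))).card : ℝ) / Y

/-- For all `l ≥ 2`, `κ`, `k ≥ 1` and `ε > 0` there are constants `C` and `b₀` such that for all `H` and `B` there is an
`N₀` with the following property. Let `A 0, A 1, …` be arbitrary sets of integers each of which contains an element of
every interval `[x, l x]`, `x ≥ 1` (the constants `C`, `b₀` and `N₀` do not depend on these sets). Let `N ≥ N₀` and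
`0 ≤ h ≤ B N`. Then there are sets `S u` of at most `C (log log N) ^ 2` elements of `A u`, all between `log ^ H N` and
`N / log ^ H N`, such that for ALL lengths `b₀ ≤ b ≤ log ^ κ N`, all intervals `(Z, Z + Y]` of at least `N / log ^ κ N`
integers in `(0, N]` and all `t` in `ℝ ^ k` the proportion of the `x` in `(Z, Z + Y]` for which, for all `i < k`, the sum
of the Moebius function over the `i`-th window of `b` moved points is at most `t i * √(6 b / π ^ 2)` differs from the
product of the Gaussian probabilities `Φ(t i)` by at most `ε`. -/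
theorem result (l κ k : ℕ) (hl : 2 ≤ l) (hk : 1 ≤ k) (ε : ℝ) (hε : 0 < ε) : ∃ (C : ℝ) (b₀ : ℕ), ∀ H B : ℕ, ∃ N₀ : ℕ,
    ∀ A : ℕ → Set ℕ, (∀ u, ∀ x : ℕ, 1 ≤ x → ∃ a ∈ A u, x ≤ a ∧ a ≤ l * x) →
      ∀ N : ℕ, N₀ ≤ N → ∀ h : ℕ, h ≤ B * N →
        ∃ S : ℕ → Finset ℕ,
          (∀ u, ∀ a ∈ S u, a ∈ A u ∧ Real.log N ^ H ≤ a ∧ (a : ℝ) ≤ N / Real.log N ^ H) ∧
          (∀ u, ((S u).card : ℝ) ≤ C * Real.log (Real.log N) ^ 2) ∧
          ∀ b : ℕ, b₀ ≤ b → (b : ℝ) ≤ Real.log N ^ κ →
          ∀ Z Y : ℕ, Z + Y ≤ N → (N : ℝ) ≤ Y * Real.log N ^ κ → ∀ t : Fin k → ℝ,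
            |law S h b Z Y t - ∏ i, (ProbabilityTheory.gaussianReal 0 1).real (Set.Iic (t i))| ≤ ε := by
  classical
  obtain ⟨C, b₀, hC⟩ := Pool.Agent.Y885.gw_gauss_all l κ k ε hl hk hε
  refine ⟨C, b₀, fun H B => ?_⟩
  obtain ⟨N₀, h0⟩ := hC H B
  refine ⟨N₀, fun A hA N hN h hh => ?_⟩
  obtain ⟨S, s1, s2, s3⟩ := h0 A hA N hN h hh
  refine ⟨S, s1, s2, fun b hb hbL Z Y hZY hY t => ?_⟩
  have h4 := s3 b hb hbL Z Y hZY hY t
  have e2 : law S h b Z Y t = (((Ioc Z (Z + Y)).filter (fun x => ∀ i : Fin k,
      ∑ u ∈ Ioc ((i : ℕ) * b) (i * b + b), Pool.Agent.H373R2.T7.muR (x + (h + u + ∑ a ∈ S u, a)) ≤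
        t i * √(6 * b / Real.pi ^ 2))).card : ℝ) / Y := by
    unfold law
    congr 2
  rw [e2]
  exact h4

end Pool.Agent.Results.MP_4f18df_nt.PerturbedWindowsGaussian
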