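import Pool.Agent.Y956.TS.Chf
import Pool.Agent.Y956.TS.Levy
import Pool.Agent.Y956.TS.Mom

/-!
# MP_4f18df_nt: the central limit theorem for the Möbius function over almost all thin subsets of short windows
-/

set_option autoImplicit false

namespace Pool.Agent.Results.MP_4f18df_nt.ThinSubsets

open Finset Filter Topology
open Pool.Agent.Y956.TS (levy mom chf pairs mr LZ_sub LZ_union LZ_fin LZ_bdd)

/-- `Z(n; s) = (Σ_j μ(n + s_j)) / √(H / ζ(2))`, `ζ(2) = π² / 6`, the normalised sum of the Möbius function over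
the `H` places `s_0, …, s_{H-1} ∈ {0, …, M - 1}` of the window `[n, n + M)` -/
noncomputable def Z {H M : ℕ} (s : Fin H → Fin M) (n : ℕ) : ℝ :=
  ((∑ j, ArithmeticFunction.moebius (n + s j) : ℤ) : ℝ) / Real.sqrt (H / (Real.pi ^ 2 / 6))

/-- the distribution function at `u` of `Z(n; s)`, where `n` is uniformly distributed on `1, …, x` -/
noncomputable def distr {H M : ℕ} (s : Fin H → Fin M) (u : ℝ) (x : ℕ) : ℝ :=
  (1 / (x : ℝ)) * (((Icc 1 x).filter (fun n => Z s n ≤ u)).card : ℝ)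

/-- the characteristic function at `t` of `Z(n; s)`, where `n` is uniformly distributed on `1, …, x` -/
noncomputable def charF {H M : ℕ} (s : Fin H → Fin M) (t : ℝ) (x : ℕ) : ℂ :=
  (1 / (x : ℂ)) * ∑ n ∈ Icc 1 x, Complex.exp (Complex.I * ((t * Z s n : ℝ) : ℂ))

/-- the standard normal distribution function -/
noncomputable def Gauss (u : ℝ) : ℝ := (ProbabilityTheory.gaussianReal 0 1 (Set.Iic u)).toReal

open Classical in
/-- logarithmic density zero: `(1 / log X) Σ_{x ≤ X, x ∈ E} 1 / x → 0` -/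
def LogDensityZero (E : Set ℕ) : Prop :=
  Tendsto (fun X : ℕ => (∑ x ∈ (Icc 1 X).filter (fun x => x ∈ E), 1 / (x : ℝ)) / Real.log X) atTop (𝓝 0)

open Classical in
/-- (i) For every real `u` and `ε > 0` there are `κ` and `H₀` such that for all `H ≥ H₀` and all `M ≥ κ H`:
outside a set of `x` of logarithmic density zero, all but at most `ε M^H` of the `H`-tuples of places
`s ∈ {0, …, M - 1}^H` satisfy `|P_{n ≤ x}(Z(n; s) ≤ u) - Φ(u)| ≤ ε`.

(ii) The same in terms of characteristic functions, in mean over the tuples. -/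
theorem result :
    (∀ u ε : ℝ, 0 < ε → ∃ κ H₀ : ℕ, ∀ H M : ℕ, H₀ ≤ H → κ * H ≤ M →
      LogDensityZero {x : ℕ | ε * (M : ℝ) ^ H <
        (((univ : Finset (Fin H → Fin M)).filter (fun s => ε < |distr s u x - Gauss u|)).card : ℝ)}) ∧
    (∀ t ε : ℝ, 0 < ε → ∃ κ H₀ : ℕ, ∀ H M : ℕ, H₀ ≤ H → κ * H ≤ M →
      LogDensityZero {x : ℕ | ε < (1 / (M : ℝ) ^ H) * ∑ s : Fin H → Fin M,
        ‖charF s t x - ((Real.exp (-(t ^ 2 / 2)) : ℝ) : ℂ)‖}) := by
  have conv : ∀ E : Set ℕ, Pool.Agent.Y958.U.LZ E → LogDensityZero E := by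
    intro E hE
    unfold LogDensityZero
    unfold Pool.Agent.Y958.U.LZ at hE
    refine hE.congr fun X => ?_
    rw [sum_filter]
  constructor
  · intro u ε hε
    set c : ℝ := 6 / Real.pi ^ 2 with hcd
    have hc : 0 < c := by positivity
    set K : ℝ := 6 / (c * ε) with hK
    have hK0 : 0 < K := by positivity
    obtain ⟨T, η, hη, hL⟩ := levy u ε K hε
    set ε' : ℝ := η * ε / (2 * (T.card + 1)) with hε'
    have hε'0 : 0 < ε' := by positivity
    choose κ H₀ hch using fun t : ℝ => chf t ε' hε'0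
    refine ⟨T.sup κ + 1, T.sup H₀ + 1, fun H M hH hM => ?_⟩
    have hHM : H ≤ M := le_trans (Nat.le_mul_of_pos_left H (Nat.succ_pos _)) hM
    have hM1 : 1 ≤ M := by omega
    have hM0 : (0 : ℝ) < M := by exact_mod_cast hM1
    have hH0 : (0 : ℝ) < H := by
      have : 1 ≤ H := by omega
      exact_mod_cast this
    have hP : (0 : ℝ) < (M : ℝ) ^ H := by positivity
    apply conv
    have h1 := LZ_fin T (fun t => {x : ℕ | ε' < (1 / (M : ℝ) ^ H) * ∑ s : Fin H → Fin M,
      ‖Pool.Agent.Y956.TS.charFun s t x - ((Real.exp (-(t ^ 2 / 2)) : ℝ) : ℂ)‖}) fun t ht =>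
        hch t H M (le_trans (Finset.le_sup ht) (by omega))
          (le_trans (Nat.mul_le_mul_right H (Finset.le_sup ht)) (le_trans (Nat.mul_le_mul_right H (by omega)) hM))
    have h2 := pairs M (1 / (M : ℝ)) (by positivity)
    refine LZ_sub ?_ (LZ_union h1 (LZ_union h2 (LZ_bdd {x | x < 1} 1 fun n hn => hn)))
    intro x hx
    by_contra hcon
    rw [Set.mem_union, Set.mem_union, not_or, not_or] at hcon
    obtain ⟨hc1, hc2, hc3⟩ := hcon
    have hx1 : 1 ≤ x := not_lt.1 hc3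
    have hx0 : (0 : ℝ) < x := by exact_mod_cast hx1
    have hx' : ε * (M : ℝ) ^ H <
        (((univ : Finset (Fin H → Fin M)).filter (fun s => ε < |distr s u x - Gauss u|)).card : ℝ) := hx
    have hδ : ∀ a < M, ∀ b < M, a ≠ b → |(1 / (x : ℝ)) * ∑ n ∈ Icc 1 x,
        ((ArithmeticFunction.moebius (n + a) : ℤ) : ℝ) * ((ArithmeticFunction.moebius (n + b) : ℤ) : ℝ)| ≤
        1 / (M : ℝ) := by
      intro a ha b hb hab
      by_contra h
      exact hc2 ⟨a, ha, b, hb, hab, not_le.1 h⟩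
    have hT : ∀ n, (fun n => ArithmeticFunction.moebius n) n = 0 ∨ (fun n => ArithmeticFunction.moebius n) n = 1 ∨
        (fun n => ArithmeticFunction.moebius n) n = -1 := fun n => by
      rcases ArithmeticFunction.moebius_eq_or n with h | h | h
      · exact Or.inl h
      · exact Or.inr (Or.inl h)
      · exact Or.inr (Or.inr h)
    have hmom := mom (fun n => ArithmeticFunction.moebius n) hT M x H hM1 hx1 (1 / (M : ℝ))
      (by positivity) hδ (by rw [mul_one_div, div_self hM0.ne']) hHM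
    -- second moment of the normalised sums
    set Q : (Fin H → Fin M) → ℝ := fun s => (1 / (x : ℝ)) * ∑ n ∈ Icc 1 x, (Z s n) ^ 2 with hQ
    have hQ0 : ∀ s, 0 ≤ Q s := fun s => mul_nonneg (by positivity) (sum_nonneg fun _ _ => sq_nonneg _)
    have hQs : ∑ s, Q s ≤ (3 / c) * (M : ℝ) ^ H := by
      have e1 : ∀ s, Q s = (1 / (H * c)) * ((1 / (x : ℝ)) * ∑ n ∈ Icc 1 x,
          ((∑ j, ArithmeticFunction.moebius (n + s j) : ℤ) : ℝ) ^ 2) := by
        intro s
        rw [hQ]; beta_reduce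
        have e2 : ∀ n, (Z s n) ^ 2 = (1 / (H * c)) * ((∑ j, ArithmeticFunction.moebius (n + s j) : ℤ) : ℝ) ^ 2 := by
          intro n
          unfold Z
          have : (H : ℝ) / (Real.pi ^ 2 / 6) = H * c := by rw [hcd]; field_simp
          rw [this, div_pow, Real.sq_sqrt (by positivity)]
          ring
        simp only [e2]
        rw [← mul_sum]
        ring
      simp only [e1]
      rw [← mul_sum]
      rw [one_div ((M : ℝ) ^ H), inv_mul_le_iff₀ hP] at hmom
      have e3 : (1 / ((H : ℝ) * c)) * ((M : ℝ) ^ H * (3 * H)) = (3 / c) * (M : ℝ) ^ H := by field_simp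
      rw [← e3]
      exact mul_le_mul_of_nonneg_left hmom (by positivity)
    -- Markov
    set U : Finset (Fin H → Fin M) := univ with hU
    have hb1 : ((U.filter (fun s => K < Q s)).card : ℝ) ≤ ε / 2 * (M : ℝ) ^ H := by
      have e1 : K * ((U.filter (fun s => K < Q s)).card : ℝ) ≤ (3 / c) * (M : ℝ) ^ H := by
        refine le_trans ?_ hQs
        calc K * ((U.filter (fun s => K < Q s)).card : ℝ) = ∑ s ∈ U.filter (fun s => K < Q s), K := by
              rw [sum_const, nsmul_eq_mul, mul_comm]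
          _ ≤ ∑ s ∈ U.filter (fun s => K < Q s), Q s := sum_le_sum fun s hs => (mem_filter.1 hs).2.le
          _ ≤ ∑ s ∈ U, Q s := sum_le_sum_of_subset_of_nonneg (filter_subset _ _) fun s _ _ => hQ0 s
      have e2 : (3 / c) * (M : ℝ) ^ H = K * (ε / 2 * (M : ℝ) ^ H) := by rw [hK]; field_simp; norm_num
      rw [e2] at e1
      exact le_of_mul_le_mul_left e1 hK0
    have hb2 : ∀ t ∈ T, ((U.filter (fun s => η <
        ‖Pool.Agent.Y956.TS.charFun s t x - ((Real.exp (-(t ^ 2 / 2)) : ℝ) : ℂ)‖)).card : ℝ) ≤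
        ε / (2 * (T.card + 1)) * (M : ℝ) ^ H := by
      intro t ht
      have e0 : (1 / (M : ℝ) ^ H) * ∑ s : Fin H → Fin M,
          ‖Pool.Agent.Y956.TS.charFun s t x - ((Real.exp (-(t ^ 2 / 2)) : ℝ) : ℂ)‖ ≤ ε' := by
        by_contra h
        exact hc1 ⟨t, ht, not_le.1 h⟩
      rw [one_div, inv_mul_le_iff₀ hP] at e0
      have e1 : η * ((U.filter (fun s => η <
        ‖Pool.Agent.Y956.TS.charFun s t x - ((Real.exp (-(t ^ 2 / 2)) : ℝ) : ℂ)‖)).card : ℝ) ≤ (M : ℝ) ^ H * ε' := by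
        refine le_trans ?_ e0
        calc η * ((U.filter (fun s => η <
              ‖Pool.Agent.Y956.TS.charFun s t x - ((Real.exp (-(t ^ 2 / 2)) : ℝ) : ℂ)‖)).card : ℝ)
            = ∑ s ∈ U.filter (fun s => η <
              ‖Pool.Agent.Y956.TS.charFun s t x - ((Real.exp (-(t ^ 2 / 2)) : ℝ) : ℂ)‖), η := by
              rw [sum_const, nsmul_eq_mul, mul_comm]
          _ ≤ ∑ s ∈ U.filter (fun s => η <
              ‖Pool.Agent.Y956.TS.charFun s t x - ((Real.exp (-(t ^ 2 / 2)) : ℝ) : ℂ)‖),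
              ‖Pool.Agent.Y956.TS.charFun s t x - ((Real.exp (-(t ^ 2 / 2)) : ℝ) : ℂ)‖ :=
              sum_le_sum fun s hs => (mem_filter.1 hs).2.le
          _ ≤ _ := sum_le_sum_of_subset_of_nonneg (filter_subset _ _) fun s _ _ => norm_nonneg _
      have e2 : (M : ℝ) ^ H * ε' = η * (ε / (2 * (T.card + 1)) * (M : ℝ) ^ H) := by rw [hε']; ring
      rw [e2] at e1
      exact le_of_mul_le_mul_left e1 hη
    -- the exceptional tuples
    have hsub : U.filter (fun s => ε < |distr s u x - Gauss u|) ⊆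
        U.filter (fun s => K < Q s) ∪ T.biUnion (fun t => U.filter (fun s => η <
        ‖Pool.Agent.Y956.TS.charFun s t x - ((Real.exp (-(t ^ 2 / 2)) : ℝ) : ℂ)‖)) := by
      intro s hs
      rw [mem_filter] at hs
      by_contra h
      rw [mem_union, not_or, mem_biUnion] at h
      obtain ⟨g1, g2⟩ := h
      have g3 : Q s ≤ K := by
        by_contra g
        exact g1 (mem_filter.2 ⟨mem_univ s, not_le.1 g⟩)
      have g4 : ∀ t ∈ T, ‖(1 / (x : ℂ)) * ∑ n ∈ Icc 1 x, Complex.exp (Complex.I * ((t * Z s n : ℝ) : ℂ)) -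
          ((Real.exp (-(t ^ 2 / 2)) : ℝ) : ℂ)‖ ≤ η := by
        intro t ht
        by_contra g
        exact g2 ⟨t, ht, mem_filter.2 ⟨mem_univ s, not_le.1 g⟩⟩
      exact absurd hs.2 (not_lt.2 (hL x hx1 (Z s) g3 g4))
    have h5 : ((U.filter (fun s => ε < |distr s u x - Gauss u|)).card : ℝ) ≤
        ε / 2 * (M : ℝ) ^ H + T.card * (ε / (2 * (T.card + 1)) * (M : ℝ) ^ H) := by
      have e1 := card_le_card hsub
      have e2 := card_union_le (U.filter (fun s => K < Q s)) (T.biUnion (fun t => U.filter (fun s => η <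
        ‖Pool.Agent.Y956.TS.charFun s t x - ((Real.exp (-(t ^ 2 / 2)) : ℝ) : ℂ)‖)))
      have e3 := card_biUnion_le (s := T) (t := fun t => U.filter (fun s => η <
        ‖Pool.Agent.Y956.TS.charFun s t x - ((Real.exp (-(t ^ 2 / 2)) : ℝ) : ℂ)‖))
      have e4 : ((U.filter (fun s => ε < |distr s u x - Gauss u|)).card : ℝ) ≤
          ((U.filter (fun s => K < Q s)).card : ℝ) + ∑ t ∈ T, ((U.filter (fun s => η <
          ‖Pool.Agent.Y956.TS.charFun s t x - ((Real.exp (-(t ^ 2 / 2)) : ℝ) : ℂ)‖)).card : ℝ) := by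
        exact_mod_cast e1.trans (e2.trans (Nat.add_le_add_left e3 _))
      refine e4.trans (add_le_add hb1 ((sum_le_sum hb2).trans (le_of_eq ?_)))
      rw [sum_const, nsmul_eq_mul]
    have h6 : (T.card : ℝ) * (ε / (2 * (T.card + 1)) * (M : ℝ) ^ H) ≤ ε / 2 * (M : ℝ) ^ H := by
      rw [← mul_assoc]
      apply mul_le_mul_of_nonneg_right _ hP.le
      rw [mul_div_assoc', div_le_div_iff₀ (by positivity) (by positivity)]
      nlinarith [(Nat.cast_nonneg T.card : (0 : ℝ) ≤ T.card)]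
    have h7 : ε / 2 * (M : ℝ) ^ H + ε / 2 * (M : ℝ) ^ H = ε * (M : ℝ) ^ H := by ring
    linarith
  · intro t ε hε
    obtain ⟨κ, H₀, h⟩ := chf t ε hε
    exact ⟨κ, H₀, fun H M hH hM => conv _ (h H M hH hM)⟩

end Pool.Agent.Results.MP_4f18df_nt.ThinSubsets
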