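import Pool.Agent.Y862.GM.All

set_option autoImplicit false

/-!
# The joint Gaussian law for sums of the truncated Moebius function over adjacent short windows

`mu y n` is the Moebius function truncated at `y`: the product over the primes `p <= y` of `0` if
`p ^ 2` divides `n`, of `-1` if `p` divides `n` but `p ^ 2` does not, and of `1` otherwise, that is
the Moebius function of the `y`-smooth part of `n`.

For every number `k` of windows, every `t` in `R^k` and every `ε > 0` there is `A` such that for all
window lengths `b >= A`, all `y` with `log y >= b ^ A` and EVERY interval `(Z, Z + Y]` of length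
`Y >= y ^ (A log log y)`: the proportion of the `x` in `(Z, Z + Y]` such that for all `i < k` the sum
of `mu y n` over the window `(x + i b, x + (i + 1) b]` is at most `t_i sqrt(b / ζ(2))` is the product
of the Gaussian probabilities `Φ(t_i)`, up to `ε`. So the normalised sums over adjacent windows are
asymptotically independent standard Gaussian variables (the increments of Brownian motion).
-/

namespace Pool.Agent.Results.MP_4f18df_nt.TruncatedGaussian

open Finset Pool.Agent.Y862.GM

open Classical in
theorem result (k : ℕ) (t : Fin k → ℝ) (ε : ℝ) (hε : 0 < ε) :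
    ∃ A : ℕ, ∀ y b Z Y : ℕ, A ≤ b → (b : ℝ) ^ A ≤ Real.log y →
      (y : ℝ) ^ (A * Real.log (Real.log y)) ≤ Y →
      |(((Ioc Z (Z + Y)).filter (fun x => ∀ i : Fin k,
        ∑ n ∈ Ioc (x + i * b) (x + i * b + b), mu y n ≤ t i * √(6 * b / Real.pi ^ 2))).card : ℝ) / Y -
        ∏ i, (ProbabilityTheory.gaussianReal 0 1).real (Set.Iic (t i))| ≤ ε :=
  gauss k t ε hε

end Pool.Agent.Results.MP_4f18df_nt.TruncatedGaussian
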